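import Pool.Agent.W254.Ab.Prod
import Pool.Agent.E8helper48.RW.Cnt

/-!
# The rank modulo linear forms in logarithms
-/

set_option autoImplicit false

namespace Pool.Agent.E8helper48.RA

open Module
open Pool.Agent.W254.Ab (QA mem_QA)
open Pool.Agent.W254.PA (Hyp)
open Pool.Agent.E8helper48.RW

variable {Ω : Type} [Field Ω] [CharZero Ω]

/-- multiplication by a number -/
noncomputable abbrev mm (a : Ω) : Ω →ₗ[(QA Ω)] Ω := LinearMap.mulLeft (QA Ω) a

theorem mm_apply (a x : Ω) : mm a x = a * x := rfl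

theorem mm_inj {a : Ω} (ha : a ≠ 0) : Function.Injective (mm a) := fun _ _ h =>
  mul_left_cancel₀ ha h

theorem finrank_map_mm {a : Ω} (ha : a ≠ 0) (T : Submodule (QA Ω) Ω) :
    finrank (QA Ω) (T.map (mm a)) = finrank (QA Ω) T :=
  (LinearEquiv.finrank_eq (Submodule.equivMapOfInjective (mm a) (mm_inj ha) T)).symm

/-- the span of `1`, `θ` -/
noncomputable def X2 (θ : Ω) : Submodule (QA Ω) Ω := Submodule.span (QA Ω) (Set.range ![1, θ])

theorem X2_indep {θ : Ω} (hθ : Transcendental ℚ θ) : LinearIndependent (QA Ω) ![(1 : Ω), θ] := by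
  rw [LinearIndependent.pair_iff]
  intro s t h
  have ht : t = 0 := by
    by_contra ht
    apply hθ
    have h1 : θ = -(s : Ω) / (t : Ω) := by
      have ht' : (t : Ω) ≠ 0 := fun h => ht (Subtype.ext h)
      rw [Algebra.smul_def, Algebra.smul_def, mul_one] at h
      have h2 : (s : Ω) + t * θ = 0 := h
      field_simp
      linear_combination h2
    rw [h1, div_eq_mul_inv]
    exact (mem_QA.1 s.2).neg.mul (mem_QA.1 t.2).inv
  subst ht
  refine ⟨?_, rfl⟩
  simpa using h

theorem X2_finrank {θ : Ω} (hθ : Transcendental ℚ θ) : finrank (QA Ω) (X2 θ) = 2 := by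
  unfold X2
  rw [finrank_span_eq_card (X2_indep hθ)]
  simp

theorem transc_ne_zero {θ : Ω} (hθ : Transcendental ℚ θ) : θ ≠ 0 := by
  rintro rfl
  exact hθ isAlgebraic_zero

/-- the dimension of `S ∩ (L + V)` -/
theorem inf_sup_le (S L V : Submodule (QA Ω) Ω) [FiniteDimensional (QA Ω) S] [FiniteDimensional (QA Ω) V] :
    finrank (QA Ω) (S ⊓ (L ⊔ V) : Submodule (QA Ω) Ω) ≤ finrank (QA Ω) (S ⊓ L : Submodule (QA Ω) Ω) + finrank (QA Ω) V := by
  let E : Submodule (QA Ω) Ω := S ⊓ (L ⊔ V)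
  have : FiniteDimensional (QA Ω) E := Submodule.finiteDimensional_of_le inf_le_left
  have : FiniteDimensional (QA Ω) (S ⊓ L : Submodule (QA Ω) Ω) := Submodule.finiteDimensional_of_le inf_le_left
  let f : E →ₗ[(QA Ω)] (Ω ⧸ L) := L.mkQ ∘ₗ E.subtype
  have h1 := LinearMap.finrank_range_add_finrank_ker f
  have h2 : finrank (QA Ω) (LinearMap.range f) ≤ finrank (QA Ω) V := by
    have h3 : LinearMap.range f ≤ V.map L.mkQ := by
      rintro _ ⟨⟨x, hx⟩, rfl⟩
      obtain ⟨a, ha, b, hb, hab⟩ := Submodule.mem_sup.1 hx.2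
      refine ⟨b, hb, ?_⟩
      change L.mkQ b = L.mkQ x
      rw [← hab, map_add]
      have : L.mkQ a = 0 := by
        rw [Submodule.mkQ_apply, Submodule.Quotient.mk_eq_zero]
        exact ha
      rw [this, zero_add]
    exact (Submodule.finrank_mono h3).trans (Submodule.finrank_map_le _ _)
  have h4 : finrank (QA Ω) (LinearMap.ker f) ≤ finrank (QA Ω) (S ⊓ L : Submodule (QA Ω) Ω) := by
    let g : LinearMap.ker f →ₗ[(QA Ω)] (S ⊓ L : Submodule (QA Ω) Ω) :=
      { toFun := fun x => ⟨(x : E), ⟨(x : E).2.1, by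
          have h5 := x.2
          rw [LinearMap.mem_ker] at h5
          have h6 : L.mkQ ((x : E) : Ω) = 0 := h5
          rwa [Submodule.mkQ_apply, Submodule.Quotient.mk_eq_zero] at h6⟩⟩
        map_add' := fun _ _ => rfl
        map_smul' := fun _ _ => rfl }
    apply LinearMap.finrank_le_finrank_of_injective (f := g)
    intro x y h
    apply Subtype.ext
    apply Subtype.ext
    exact congrArg (fun z : (S ⊓ L : Submodule (QA Ω) Ω) => (z : Ω)) h
  change finrank (QA Ω) E ≤ _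
  omega

theorem finrank_map_mkQ (S L : Submodule (QA Ω) Ω) [FiniteDimensional (QA Ω) S] :
    finrank (QA Ω) (S.map L.mkQ) + finrank (QA Ω) (S ⊓ L : Submodule (QA Ω) Ω) = finrank (QA Ω) S := by
  let f : S →ₗ[(QA Ω)] (Ω ⧸ L) := L.mkQ ∘ₗ S.subtype
  have h1 := LinearMap.finrank_range_add_finrank_ker f
  have h2 : LinearMap.range f = S.map L.mkQ := by
    rw [LinearMap.range_comp, Submodule.range_subtype]
  have h3 : finrank (QA Ω) (LinearMap.ker f) = finrank (QA Ω) (S ⊓ L : Submodule (QA Ω) Ω) := by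
    have h4 : LinearMap.ker f = L.comap S.subtype := by
      rw [LinearMap.ker_comp, Submodule.ker_mkQ]
    have h5 : L.comap S.subtype = (S ⊓ L).comap S.subtype := by
      ext x
      simp
    rw [h4, h5]
    exact (Submodule.comapSubtypeEquivOfLe (inf_le_left : S ⊓ L ≤ S)).finrank_eq
  rw [← h2, ← h3]
  exact h1

/-- **The rank bound.** -/
theorem rank_bound {𝓥 : Submodule (QA Ω) Ω} (hV : Hyp 𝓥) {θ μ : Ω} (hθ : Transcendental ℚ θ) (hμ : μ ≠ 0) (V T : Submodule (QA Ω) Ω)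
    [FiniteDimensional (QA Ω) V] [FiniteDimensional (QA Ω) T] :
    finrank (QA Ω) T ≤ 2 * finrank (QA Ω) ((T.map (mm μ) ⊔ T.map (mm (μ * θ))).map (𝓥 ⊔ V).mkQ) + 2 +
      2 * finrank (QA Ω) V := by
  have hθ0 := transc_ne_zero hθ
  let S : Submodule (QA Ω) Ω := T.map (mm μ) ⊔ T.map (mm (μ * θ))
  have hS : FiniteDimensional (QA Ω) S := inferInstance
  let W : Submodule (QA Ω) Ω := S ⊓ 𝓥
  have : FiniteDimensional (QA Ω) W := Submodule.finiteDimensional_of_le inf_le_left
  let Y : Submodule (QA Ω) Ω := S ⊔ S.map (mm θ)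
  have : FiniteDimensional (QA Ω) Y := inferInstance
  have : FiniteDimensional (QA Ω) (X2 θ) := by
    unfold X2
    exact FiniteDimensional.span_of_finite (QA Ω) (Set.finite_range _)
  have h1 := Pool.Agent.W254.Ab.product_le hV (X2 θ) W Y inf_le_right (by
    intro x hx w hw
    unfold X2 at hx
    rw [Submodule.mem_span_range_iff_exists_fun] at hx
    obtain ⟨c, rfl⟩ := hx
    rw [Fin.sum_univ_two, add_mul]
    simp only [Matrix.cons_val_zero, Matrix.cons_val_one]
    apply Submodule.add_mem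
    · rw [smul_mul_assoc, one_mul]
      exact Submodule.mem_sup_left (S.smul_mem _ hw.1)
    · rw [smul_mul_assoc]
      exact Submodule.mem_sup_right (Submodule.smul_mem _ _ ⟨w, hw.1, rfl⟩))
  rw [X2_finrank hθ] at h1
  have h2 := Submodule.finrank_sup_add_finrank_inf_eq S (S.map (mm θ))
  rw [finrank_map_mm hθ0] at h2
  have h3 : finrank (QA Ω) T ≤ finrank (QA Ω) (S ⊓ S.map (mm θ) : Submodule (QA Ω) Ω) := by
    rw [← finrank_map_mm (mul_ne_zero hμ hθ0) T]
    apply Submodule.finrank_mono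
    apply le_inf le_sup_right
    rintro _ ⟨x, hx, rfl⟩
    refine ⟨μ * x, Submodule.mem_sup_left ⟨x, hx, rfl⟩, ?_⟩
    rw [mm_apply, mm_apply]
    ring
  have h4 := inf_sup_le S 𝓥 V
  have h5 := finrank_map_mkQ S (𝓥 ⊔ V)
  change finrank (QA Ω) T ≤ 2 * finrank (QA Ω) (S.map (𝓥 ⊔ V).mkQ) + 2 + 2 * finrank (QA Ω) V
  have h6 : finrank (QA Ω) Y = finrank (QA Ω) (S ⊔ S.map (mm θ) : Submodule (QA Ω) Ω) := rfl
  have h7 : finrank (QA Ω) W = finrank (QA Ω) (S ⊓ 𝓥 : Submodule (QA Ω) Ω) := rfl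
  omega

end Pool.Agent.E8helper48.RA
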