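import Pool.Agent.E8helper48.RA.Reduce
import Pool.Agent.E8helper48.RW.Final

/-!
# Words of affine maps over a field with the hyperplane property
-/

set_option autoImplicit false
set_option linter.unusedSectionVars false

namespace Pool.Agent.E8helper48.RA

open Module
open Pool.Agent.W254.Ab (QA mem_QA)
open Pool.Agent.W254.PA (Hyp)
open Pool.Agent.E8helper48.RW

section

variable {Ω : Type} [Field Ω] [CharZero Ω]
variable {κ : Type} [Fintype κ] [DecidableEq κ] {Γ : Type} [LinearOrderedCommGroupWithZero Γ]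

theorem map_lev (v : Valuation Ω Γ) (A : κ → Ω) (U : Finset κ) (l : List κ) :
    (lev A U l).map v = glev (fun u => v (A u)) U l := by
  have h1 : ∀ l : List κ, v (PP A l) = pr (fun u => v (A u)) l := by
    intro l
    induction l with
    | nil => simp [PP, pr]
    | cons u l ih => rw [PP, pr, map_mul, ih]
  induction l with
  | nil => rfl
  | cons u l ih =>
    rw [lev, glev]
    split_ifs
    · rw [List.map_cons, ih, h1]
    · exact ih

theorem nlev_eq (v : Valuation Ω Γ) (A : κ → Ω) (U : Finset κ) (l : List κ) :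
    nlev v A U l = NL (fun u => v (A u)) U l := by
  unfold nlev NL
  rw [map_lev]

end

theorem core {Ω : Type} [Field Ω] [CharZero Ω] {𝓥 : Submodule (QA Ω) Ω} (hV : Hyp 𝓥)
    {κ : Type} [Fintype κ] [DecidableEq κ] {A B : κ → Ω} {U : Finset κ} {A₀ B₀ μ θ : Ω}
    (h : Bits A B U A₀ B₀ μ θ) (hk : ∃ k, Transcendental ℚ (A k)) (V : Submodule (QA Ω) Ω)
    [FiniteDimensional (QA Ω) V] (n : ℕ) (y : Ω) :
    S n (fun l => ind (val A B l y ∈ 𝓥 ⊔ V)) ≤
      8 * 2 ^ finrank (QA Ω) V * (Fintype.card κ : ℝ) ^ n *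
        Real.exp (-(c0 (Fintype.card κ) * (n : ℝ) ^ (1 / 3 : ℝ))) := by
  obtain ⟨k, hk⟩ := hk
  obtain ⟨W, hW1, hW2⟩ := exists_val hk
  have h1 := h.main hV V W.valuation hW1 n y
  have hp : ∀ u, (fun u => W.valuation (A u)) u ≠ 0 := fun u =>
    (Valuation.ne_zero_iff _).2 (h.hA u)
  have h2 := decay (p := fun u => W.valuation (A u)) (U := U) hp ⟨k, hW2.ne'⟩ h.card_U.ge n
  simp only [nlev_eq] at h1
  refine h1.trans ?_
  calc 2 ^ (finrank (QA Ω) V + 1) * S n (fun l => (√2)⁻¹ ^ NL (fun u => W.valuation (A u)) U l)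
      ≤ 2 ^ (finrank (QA Ω) V + 1) * _ := mul_le_mul_of_nonneg_left h2 (by positivity)
    _ = _ := by
        unfold c0
        rw [pow_succ]
        ring

end Pool.Agent.E8helper48.RA
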