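import Pool.Agent.E8helper48.RA.Words

/-!
# Words of affine maps: the bound by the number of levels
-/

set_option autoImplicit false
set_option linter.unusedSectionVars false

namespace Pool.Agent.E8helper48.RA

open Module
open Pool.Agent.W254.Ab (QA mem_QA)
open Pool.Agent.W254.PA (Hyp)
open Pool.Agent.E8helper48.RW

variable {Ω : Type} [Field Ω] [CharZero Ω]

section

variable {κ : Type} [Fintype κ] [DecidableEq κ]
variable {A B : κ → Ω} {U : Finset κ} {A₀ B₀ μ θ : Ω}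

open Classical in
/-- the number of levels of a word -/
noncomputable def nlev {Γ : Type} [LinearOrderedCommGroupWithZero Γ] (v : Valuation Ω Γ)
    (A : κ → Ω) (U : Finset κ) (l : List κ) : ℕ := (((lev A U l).map v).toFinset).card

theorem Bits.le_rank {𝓥 : Submodule (QA Ω) Ω} (hV : Hyp 𝓥) (h : Bits A B U A₀ B₀ μ θ) (V : Submodule (QA Ω) Ω) [FiniteDimensional (QA Ω) V]
    {Γ : Type} [LinearOrderedCommGroupWithZero Γ] (v : Valuation Ω Γ)
    (hv : ∀ a : Ω, a ≠ 0 → IsAlgebraic ℚ a → v a = 1) (l : List κ) :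
    nlev v A U l ≤ 2 * finrank (QA Ω) (lspan (QA Ω) (zs A U μ θ (𝓥 ⊔ V) l)) + 2 + 2 * finrank (QA Ω) V := by
  have h1 := card_le_finrank v hv (lev A U l) (lev_ne h.hA U l)
  have h2 := rank_bound hV h.hθ h.hμ V (lspan (QA Ω) (lev A U l))
  rw [lspan_zs]
  exact h1.trans h2

theorem Bits.main {𝓥 : Submodule (QA Ω) Ω} (hV : Hyp 𝓥) (h : Bits A B U A₀ B₀ μ θ) (V : Submodule (QA Ω) Ω) [FiniteDimensional (QA Ω) V]
    {Γ : Type} [LinearOrderedCommGroupWithZero Γ] (v : Valuation Ω Γ)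
    (hv : ∀ a : Ω, a ≠ 0 → IsAlgebraic ℚ a → v a = 1) (n : ℕ) (y : Ω) :
    S n (fun l => ind (val A B l y ∈ 𝓥 ⊔ V)) ≤
      2 ^ (finrank (QA Ω) V + 1) * S n (fun l => (√2)⁻¹ ^ nlev v A U l) := by
  rw [h.avg (𝓥 ⊔ V) n y, ← S_smul]
  refine S_mono n fun l _ => ?_
  have h1 := cnt_le (QA Ω) (zs A U μ θ (𝓥 ⊔ V) l) (-(𝓥 ⊔ V).mkQ (bval A B U B₀ l y))
  have h2 := h.le_rank hV V v hv l
  rw [zs_length] at h1
  set R := finrank (QA Ω) (lspan (QA Ω) (zs A U μ θ (𝓥 ⊔ V) l)) with hR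
  set c := cnt (zs A U μ θ (𝓥 ⊔ V) l) (-(𝓥 ⊔ V).mkQ (bval A B U B₀ l y)) with hc
  set m := (lev A U l).length with hm
  have h3 : (c : ℝ) * 2 ^ R ≤ 4 ^ m := by
    have h4 : ((c * 2 ^ R : ℕ) : ℝ) ≤ ((2 ^ (2 * m) : ℕ) : ℝ) := by exact_mod_cast h1
    push_cast at h4
    rw [pow_mul] at h4
    norm_num at h4
    exact h4
  have h5 : (c : ℝ) / 4 ^ m ≤ (2 ^ R)⁻¹ := by
    rw [div_le_iff₀ (by positivity), inv_mul_eq_div, le_div_iff₀ (by positivity)]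
    exact h3
  refine h5.trans ?_
  have hs : (√2 : ℝ) ^ 2 = 2 := Real.sq_sqrt (by norm_num)
  have hs1 : (1 : ℝ) ≤ √2 := by
    rw [Real.one_le_sqrt]; norm_num
  have h6 : (√2 : ℝ) ^ nlev v A U l ≤ 2 ^ R * 2 ^ (finrank (QA Ω) V + 1) := by
    calc (√2 : ℝ) ^ nlev v A U l ≤ √2 ^ (2 * R + 2 + 2 * finrank (QA Ω) V) :=
          pow_le_pow_right₀ hs1 h2
      _ = (√2 ^ 2) ^ (R + (finrank (QA Ω) V + 1)) := by rw [← pow_mul]; congr 1; ring
      _ = _ := by rw [hs, pow_add]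
  rw [inv_pow, ← div_eq_mul_inv, le_div_iff₀ (by positivity), inv_mul_eq_div,
    div_le_iff₀ (by positivity), mul_comm]
  exact h6

end

end Pool.Agent.E8helper48.RA
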