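import Pool.Agent.E8helper48.RA.Alg
import Pool.Agent.E8helper48.RA.Val

/-!
# Words of affine maps: passage to the rank
-/

set_option autoImplicit false
set_option linter.unusedSectionVars false

namespace Pool.Agent.E8helper48.RA

open Module
open Pool.Agent.W254.Ab (QA mem_QA)
open Pool.Agent.W254.PA (Hyp)
open Pool.Agent.E8helper48.RW

variable {Ω : Type} [Field Ω] [CharZero Ω]

section

variable {κ : Type} [DecidableEq κ]

/-- the value of a word of affine maps `y ↦ A u * y + B u` -/
def val (A B : κ → Ω) : List κ → Ω → Ω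
  | [], y => y
  | u :: l, y => val A B l (A u * y + B u)

/-- the linear part of a word -/
def PP (A : κ → Ω) : List κ → Ω
  | [] => 1
  | u :: l => A u * PP A l

theorem PP_ne {A : κ → Ω} (hA : ∀ u, A u ≠ 0) : ∀ l, PP A l ≠ 0
  | [] => one_ne_zero
  | u :: l => mul_ne_zero (hA u) (PP_ne hA l)

theorem PP_append (A : κ → Ω) (l l' : List κ) : PP A (l ++ l') = PP A l * PP A l' := by
  induction l with
  | nil => simp [PP]
  | cons u l ih => simp [PP, ih, mul_assoc]

theorem val_add (A B : κ → Ω) (l : List κ) : ∀ y δ : Ω,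
    val A B l (y + δ) = val A B l y + PP A l * δ := by
  induction l with
  | nil => intro y δ; simp [val, PP]
  | cons u l ih =>
    intro y δ
    simp only [val, PP]
    rw [show A u * (y + δ) + B u = (A u * y + B u) + A u * δ by ring, ih]
    ring

theorem val_append (A B : κ → Ω) (l l' : List κ) : ∀ y : Ω,
    val A B (l ++ l') y = val A B l' (val A B l y) := by
  induction l with
  | nil => intro y; rfl
  | cons u l ih => intro y; exact ih _

theorem val_foldl (A B : κ → Ω) (l : List κ) : ∀ y : Ω,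
    val A B l y = l.foldl (fun y u => A u * y + B u) y := by
  induction l with
  | nil => intro y; rfl
  | cons u l ih => intro y; exact ih _

/-- the linear parts of what follows the letters in `U` -/
def lev (A : κ → Ω) (U : Finset κ) : List κ → List Ω
  | [] => []
  | u :: l => if u ∈ U then PP A l :: lev A U l else lev A U l

theorem lev_ne {A : κ → Ω} (hA : ∀ u, A u ≠ 0) (U : Finset κ) (l : List κ) :
    ∀ x ∈ lev A U l, x ≠ 0 := by
  induction l with
  | nil => intro x hx; simp [lev] at hx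
  | cons u l ih =>
    intro x hx
    unfold lev at hx
    split_ifs at hx
    · rcases List.mem_cons.1 hx with h | h
      · rw [h]; exact PP_ne hA l
      · exact ih x h
    · exact ih x hx

/-- the base values -/
def bval (A B : κ → Ω) (U : Finset κ) (B₀ : Ω) : List κ → Ω → Ω
  | [], y => y
  | u :: l, y => bval A B U B₀ l (A u * y + if u ∈ U then B₀ else B u)

theorem bval_add (A B : κ → Ω) (U : Finset κ) (B₀ : Ω) (l : List κ) : ∀ y δ : Ω,
    bval A B U B₀ l (y + δ) = bval A B U B₀ l y + PP A l * δ := by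
  induction l with
  | nil => intro y δ; simp [bval, PP]
  | cons u l ih =>
    intro y δ
    simp only [bval, PP]
    rw [show A u * (y + δ) + (if u ∈ U then B₀ else B u) =
      (A u * y + if u ∈ U then B₀ else B u) + A u * δ by ring, ih]
    ring

/-- the list of vectors -/
noncomputable def zs (A : κ → Ω) (U : Finset κ) (μ θ : Ω) (L : Submodule (QA Ω) Ω) (l : List κ) :
    List (Ω ⧸ L) := (lev A U l).flatMap fun N => [L.mkQ (μ * N), L.mkQ (μ * θ * N)]

theorem zs_cons_of_mem {A : κ → Ω} {U : Finset κ} {μ θ : Ω} {L : Submodule (QA Ω) Ω} {u : κ} (hu : u ∈ U)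
    (l : List κ) : zs A U μ θ L (u :: l) =
      L.mkQ (μ * PP A l) :: L.mkQ (μ * θ * PP A l) :: zs A U μ θ L l := by
  unfold zs
  rw [lev, if_pos hu]
  simp

theorem zs_cons_of_notMem {A : κ → Ω} {U : Finset κ} {μ θ : Ω} {L : Submodule (QA Ω) Ω} {u : κ}
    (hu : u ∉ U) (l : List κ) : zs A U μ θ L (u :: l) = zs A U μ θ L l := by
  unfold zs
  rw [lev, if_neg hu]

theorem zs_length (A : κ → Ω) (U : Finset κ) (μ θ : Ω) (L : Submodule (QA Ω) Ω) (l : List κ) :
    (zs A U μ θ L l).length = 2 * (lev A U l).length := by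
  unfold zs
  simp [mul_comm]

theorem lspan_zs (A : κ → Ω) (U : Finset κ) (μ θ : Ω) (L : Submodule (QA Ω) Ω) (l : List κ) :
    lspan (QA Ω) (zs A U μ θ L l) =
      ((lspan (QA Ω) (lev A U l)).map (mm μ) ⊔ (lspan (QA Ω) (lev A U l)).map (mm (μ * θ))).map L.mkQ := by
  unfold lspan zs
  rw [Submodule.map_span, Submodule.map_span, ← Submodule.span_union, Submodule.map_span]
  congr 1
  ext x
  simp only [List.mem_flatMap, Set.mem_ofPred_eq, Set.mem_image, Set.mem_union, List.mem_cons,
    List.not_mem_nil, or_false]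
  constructor
  · rintro ⟨N, hN, h | h⟩
    · exact ⟨_, Or.inl ⟨N, hN, rfl⟩, h.symm⟩
    · exact ⟨_, Or.inr ⟨N, hN, rfl⟩, h.symm⟩
  · rintro ⟨_, ⟨N, hN, rfl⟩ | ⟨N, hN, rfl⟩, rfl⟩
    · exact ⟨N, hN, Or.inl rfl⟩
    · exact ⟨N, hN, Or.inr rfl⟩

end

section

variable {κ : Type} [Fintype κ] [DecidableEq κ]

theorem S_sum {ι : Type} (s : Finset ι) (n : ℕ) (F : ι → List κ → ℝ) :
    S n (fun l => ∑ i ∈ s, F i l) = ∑ i ∈ s, S n (F i) := by
  classical
  induction s using Finset.induction_on with
  | empty => simp [S_const]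
  | insert a s ha ih =>
    simp only [Finset.sum_insert ha]
    rw [S_add, ih]

/-- the data of four letters giving two free bits -/
structure Bits (A B : κ → Ω) (U : Finset κ) (A₀ B₀ μ θ : Ω) : Prop where
  hA : ∀ u, A u ≠ 0
  hθ : Transcendental ℚ θ
  hμ : μ ≠ 0
  hU : ∃ e : Bool × Bool → κ, Function.Injective e ∧ U = Finset.univ.image e ∧
    (∀ x, A (e x) = A₀) ∧
    (∀ x, B (e x) = B₀ + μ * ((if x.1 then 1 else 0) + (if x.2 then θ else 0)))

variable {A B : κ → Ω} {U : Finset κ} {A₀ B₀ μ θ : Ω}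

theorem Bits.sum_U (h : Bits A B U A₀ B₀ μ θ) (L : Submodule (QA Ω) Ω) (l : List κ) (y : Ω) (u₀ : κ)
    (hu₀ : u₀ ∈ U) :
    ∑ u ∈ U, cnt (zs A U μ θ L l) (-L.mkQ (bval A B U B₀ l (A u * y + B u))) =
      cnt (zs A U μ θ L (u₀ :: l)) (-L.mkQ (bval A B U B₀ (u₀ :: l) y)) := by
  obtain ⟨e, he, hUe, hA, hB⟩ := h.hU
  have hA₀ : A u₀ = A₀ := by
    rw [hUe, Finset.mem_image] at hu₀
    obtain ⟨x, -, rfl⟩ := hu₀
    exact hA x
  rw [zs_cons_of_mem hu₀]
  have h0 : bval A B U B₀ (u₀ :: l) y = bval A B U B₀ l (A₀ * y + B₀) := by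
    rw [bval, if_pos hu₀, hA₀]
  rw [h0]
  have h1 : ∑ u ∈ U, cnt (zs A U μ θ L l) (-L.mkQ (bval A B U B₀ l (A u * y + B u))) =
      ∑ x : Bool × Bool, cnt (zs A U μ θ L l) (-L.mkQ (bval A B U B₀ l (A₀ * y + B₀)) -
        (if x.1 then L.mkQ (μ * PP A l) else 0) - (if x.2 then L.mkQ (μ * θ * PP A l) else 0)) := by
    conv_lhs => rw [hUe]
    rw [Finset.sum_image (fun x _ y _ hxy => he hxy)]
    refine Finset.sum_congr rfl fun x _ => ?_
    rw [hA, hB, ← add_assoc, bval_add, map_add, ← hUe]
    congr 1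
    rcases x with ⟨_ | _, _ | _⟩
    · simp
    · simp only [Bool.false_eq_true, if_false, if_true, zero_add]
      rw [show PP A l * (μ * θ) = μ * θ * PP A l by ring]
      abel
    · simp only [Bool.false_eq_true, if_false, if_true, add_zero]
      rw [show PP A l * (μ * 1) = μ * PP A l by ring]
      abel
    · simp only [if_true]
      rw [show PP A l * (μ * (1 + θ)) = μ * PP A l + μ * θ * PP A l by ring, map_add]
      abel
  rw [h1, Fintype.sum_prod_type]
  simp only [Fintype.sum_bool, if_true, Bool.false_eq_true, if_false, sub_zero]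
  simp only [cnt]
  omega

theorem Bits.card_U (h : Bits A B U A₀ B₀ μ θ) : U.card = 4 := by
  obtain ⟨e, he, hUe, hA, hB⟩ := h.hU
  rw [hUe, Finset.card_image_of_injective _ he]
  rfl

theorem Bits.avg (h : Bits A B U A₀ B₀ μ θ) (L : Submodule (QA Ω) Ω) (n : ℕ) : ∀ y : Ω,
    S n (fun l => ind (val A B l y ∈ L)) =
      S n (fun l => (cnt (zs A U μ θ L l) (-L.mkQ (bval A B U B₀ l y)) : ℝ) /
        4 ^ (lev A U l).length) := by
  induction n with
  | zero =>
    intro y
    simp only [S, val, lev, bval, zs, List.flatMap_nil, cnt, List.length_nil, pow_zero, div_one]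
    have : (-L.mkQ y = 0) ↔ y ∈ L := by
      rw [neg_eq_zero, Submodule.mkQ_apply, Submodule.Quotient.mk_eq_zero]
    by_cases hy : y ∈ L
    · rw [ind_pos hy, if_pos (this.2 hy), Nat.cast_one]
    · rw [ind_neg hy, if_neg (fun h => hy (this.1 h)), Nat.cast_zero]
  | succ n ih =>
    intro y
    rw [S_succ, S_succ]
    simp only [val]
    rw [Finset.sum_congr rfl fun u _ => ih (A u * y + B u)]
    rw [← Finset.sum_add_sum_compl U, ← Finset.sum_add_sum_compl U]
    congr 1
    · obtain ⟨e, he, hUe, hA, hB⟩ := h.hU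
      set u₀ := e (false, false) with hu₀
      have hu₀U : u₀ ∈ U := by
        rw [hUe]
        exact Finset.mem_image_of_mem _ (Finset.mem_univ _)
      have h1 : ∀ u ∈ U, S n (fun l => (cnt (zs A U μ θ L (u :: l))
          (-L.mkQ (bval A B U B₀ (u :: l) y)) : ℝ) / 4 ^ (lev A U (u :: l)).length) =
          (1 / 4) * S n (fun l => ∑ u ∈ U, (cnt (zs A U μ θ L l)
            (-L.mkQ (bval A B U B₀ l (A u * y + B u))) : ℝ) / 4 ^ (lev A U l).length) := by
        intro u hu
        rw [← S_smul]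
        refine S_congr n fun l _ => ?_
        rw [← h.sum_U L l y u hu, lev, if_pos hu, List.length_cons, pow_succ, Nat.cast_sum,
          Finset.sum_div]
        rw [Finset.mul_sum]
        refine Finset.sum_congr rfl fun u' _ => ?_
        field_simp
      rw [Finset.sum_congr rfl h1, Finset.sum_const, h.card_U, S_sum]
      simp
    · refine Finset.sum_congr rfl fun u hu => ?_
      have hu' : u ∉ U := Finset.mem_compl.1 hu
      refine S_congr n fun l _ => ?_
      rw [zs_cons_of_notMem hu', lev, if_neg hu', bval, if_neg hu']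

end

end Pool.Agent.E8helper48.RA
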